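import Pool.Agent.T9h20.TG.Spec
import Pool.Agent.T9h52.TF.CellCore

/-!
# The piece (C) of `Pool.Agent.T9h20.TG.Spec`: covering
-/

set_option autoImplicit false

open MeasureTheory Set Filter Topology

namespace Pool.Agent.T9h22.TG

open Pool.Agent.T9h52.TF (ph ph_mono ph_abs ph_key)

theorem ph_neg (s : ℝ) : ph (-s) = -ph s := by
  unfold ph
  rcases lt_trichotomy s 0 with h | h | h
  · rw [if_pos (by linarith), if_neg (by linarith)]
    simp [sub_eq_add_neg]
  · subst h
    simp
  · rw [if_neg (by linarith), if_pos h.le]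
    simp

theorem ph_two {s s' : ℝ} (h9 : |ph s' - ph s| ≤ 1 / 9) : |s' - s| ≤ (1 + |s|) / 8 := by
  obtain ⟨h1, h2⟩ := abs_le.1 h9
  rcases le_total s s' with h | h
  · rw [abs_of_nonneg (by linarith)]
    exact ph_key h h2
  · rw [abs_of_nonpos (by linarith)]
    have h3 := ph_key (s := -s) (s' := -s') (by linarith) (by rw [ph_neg, ph_neg]; linarith)
    rw [abs_neg] at h3
    linarith

theorem sCov : Pool.Agent.T9h20.TG.SCov := by
  classical
  intro B η Y p r hη hY hp hpr hr hB
  set L : ℝ := Real.log (1 + 2 * Y / η) with hL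
  have hL0 : 0 ≤ L := Real.log_nonneg (by have : 0 ≤ 2 * Y / η := by positivity
                                          linarith)
  set K : ℝ := B.card * L with hK
  have hK0 : 0 ≤ K := by positivity
  let ψ : ℝ → ℝ := fun x => ∑ b ∈ B, ph ((x - b) / η)
  have hψ : ∀ y ∈ Icc p r, |ψ y| ≤ K := by
    intro y hy
    have hyY : |y| ≤ Y := abs_le.2 ⟨by linarith [hy.1], by linarith [hy.2]⟩
    calc |ψ y| ≤ ∑ b ∈ B, |ph ((y - b) / η)| := Finset.abs_sum_le_sum_abs _ _
      _ ≤ ∑ b ∈ B, L := by
          refine Finset.sum_le_sum fun b hb => ph_abs ?_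
          rw [abs_div, abs_of_pos hη]
          gcongr
          calc |y - b| ≤ |y| + |b| := abs_sub _ _
            _ ≤ 2 * Y := by linarith [hB b hb]
      _ = K := by rw [Finset.sum_const, nsmul_eq_mul]
  have hfl : ∀ y ∈ Icc p r, 0 ≤ 10 * (ψ y + K) ∧ 10 * (ψ y + K) ≤ 20 * K := by
    intro y hy
    obtain ⟨h1, h2⟩ := abs_le.1 (hψ y hy)
    constructor <;> linarith
  let f : ℝ → ℕ := fun y => ⌊10 * (ψ y + K)⌋₊
  have hch : ∀ c : ℕ, ∃ x ∈ Icc p r, (∃ y ∈ Icc p r, f y = c) → f x = c := by
    intro c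
    by_cases h : ∃ y ∈ Icc p r, f y = c
    · obtain ⟨y, hy, hc⟩ := h
      exact ⟨y, hy, fun _ => hc⟩
    · exact ⟨p, ⟨le_rfl, hpr⟩, fun h' => absurd h' h⟩
  choose g hg hgf using hch
  refine ⟨(Finset.range (⌊20 * K⌋₊ + 1)).image g, ?_, ?_, ?_⟩
  · intro x hx
    obtain ⟨c, -, rfl⟩ := Finset.mem_image.1 hx
    exact hg c
  · have h1 : ((Finset.range (⌊20 * K⌋₊ + 1)).image g).card ≤ ⌊20 * K⌋₊ + 1 := by
      refine Finset.card_image_le.trans ?_
      rw [Finset.card_range]
    have h2 : (⌊20 * K⌋₊ : ℝ) ≤ 20 * K := Nat.floor_le (by positivity)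
    have h3 : (((Finset.range (⌊20 * K⌋₊ + 1)).image g).card : ℝ) ≤ ((⌊20 * K⌋₊ + 1 : ℕ) : ℝ) := by
      exact_mod_cast h1
    push_cast at h3
    have e6 : 20 * (B.card : ℝ) * L = 20 * K := by rw [hK]; ring
    rw [e6]
    linarith
  · intro y hy
    refine ⟨g (f y), Finset.mem_image.2 ⟨f y, ?_, rfl⟩, ?_⟩
    · rw [Finset.mem_range, Nat.lt_succ_iff]
      exact Nat.floor_le_floor (hfl y hy).2
    · intro b hb
      set x := g (f y) with hx
      have hxI : x ∈ Icc p r := hg (f y)
      have hfx : f x = f y := hgf (f y) ⟨y, hy, rfl⟩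
      have e2 : 10 * (ψ y + K) < (f y : ℝ) + 1 := Nat.lt_floor_add_one _
      have e3 : (f y : ℝ) ≤ 10 * (ψ y + K) := Nat.floor_le (hfl y hy).1
      have e2' : 10 * (ψ x + K) < (f x : ℝ) + 1 := Nat.lt_floor_add_one _
      have e3' : (f x : ℝ) ≤ 10 * (ψ x + K) := Nat.floor_le (hfl x hxI).1
      rw [hfx] at e2' e3'
      -- one coordinate of a monotone sum
      have hone : ∀ u v : ℝ, u ≤ v → ph ((v - b) / η) - ph ((u - b) / η) ≤ ψ v - ψ u := by
        intro u v huv
        have : ph ((v - b) / η) - ph ((u - b) / η) ≤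
            ∑ z ∈ B, (ph ((v - z) / η) - ph ((u - z) / η)) := by
          apply Finset.single_le_sum (f := fun z => ph ((v - z) / η) - ph ((u - z) / η)) _ hb
          intro z _
          have : ph ((u - z) / η) ≤ ph ((v - z) / η) := ph_mono (by gcongr)
          simpa using this
        rw [Finset.sum_sub_distrib] at this
        exact this
      have hab : |ph ((y - b) / η) - ph ((x - b) / η)| ≤ 1 / 9 := by
        rcases le_total x y with h | h
        · have h1 := hone x y h
          have h2 : ph ((x - b) / η) ≤ ph ((y - b) / η) := ph_mono (by gcongr)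
          rw [abs_of_nonneg (by linarith)]
          linarith
        · have h1 := hone y x h
          have h2 : ph ((y - b) / η) ≤ ph ((x - b) / η) := ph_mono (by gcongr)
          rw [abs_of_nonpos (by linarith)]
          linarith
      have hk := ph_two hab
      have e4 : (y - b) / η - (x - b) / η = (y - x) / η := by ring
      rw [e4, abs_div, abs_div, abs_of_pos hη, div_le_iff₀ hη] at hk
      have e5 : (1 + |x - b| / η) / 8 * η = (η + |x - b|) / 8 := by
        field_simp
      rw [e5] at hk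
      exact hk

end Pool.Agent.T9h22.TG
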